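import Pool.Agent.Helper86.Poly.Goals

set_option autoImplicit false

namespace Pool.Agent.Helper57.Poly

open MeasureTheory Set Pool.Agent.Helper86.Poly

namespace PkPENT

/-- the pentagon, first coordinate = axis of symmetry -/
noncomputable def c : Fin 5 → E 2 :=
  ![!₂[(0.52573 : ℝ), 0], !₂[(0.16246 : ℝ), 0.5], !₂[(0.16246 : ℝ), -0.5],
    !₂[(-0.42532 : ℝ), 0.30901], !₂[(-0.42532 : ℝ), -0.30901]]

lemma dist_c : ∀ i j, dist (c i) (c j) ≤ 1 := by
  intro i j
  rw [EuclideanSpace.dist_eq, Fin.sum_univ_two]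
  rw [Real.dist_eq, Real.dist_eq, sq_abs, sq_abs, Real.sqrt_le_left (by norm_num), one_pow]
  fin_cases i <;> fin_cases j <;> simp [c] <;> norm_num

lemma norm_c : ∀ i, ‖c i‖ ^ 2 ≤ 0.2764 := by
  intro i
  rw [EuclideanSpace.norm_sq_eq, Fin.sum_univ_two, Real.norm_eq_abs, Real.norm_eq_abs, sq_abs, sq_abs]
  fin_cases i <;> simp [c] <;> norm_num

lemma mem_c (i : Fin 5) : c i ∈ convexHull ℝ (range c) := subset_convexHull ℝ _ (mem_range_self i)

lemma zero_mem : (0 : E 2) ∈ convexHull ℝ (range c) := by
  have hK := convex_convexHull ℝ (range c)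
  have h1 : (1 / 2 : ℝ) • c 3 + (1 / 2 : ℝ) • c 4 ∈ convexHull ℝ (range c) :=
    hK (mem_c 3) (mem_c 4) (by norm_num) (by norm_num) (by norm_num)
  have h2 := hK (mem_c 0) h1 (a := 42532 / 95105) (b := 52573 / 95105) (by norm_num) (by norm_num)
    (by norm_num)
  convert h2 using 1
  ext i
  fin_cases i <;> simp [c] <;> norm_num

/-- projection to the pair of coordinates -/
def Φ : E 2 → ℝ × ℝ := fun x => (x 0, x 1)

lemma Φ_mp : MeasurePreserving Φ volume volume :=
  (volume_preserving_finTwoArrow ℝ).comp (PiLp.volume_preserving_ofLp (Fin 2))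

/-- half width -/
noncomputable def wd (a b ra rb t : ℝ) : ℝ := (ra * (b - t) + rb * (t - a)) / (b - a)

lemma mem_region (K : Set (E 2)) (hK : Convex ℝ K) (a b ra rb : ℝ) (hab : a < b)
    (h1 : !₂[a, ra] ∈ K) (h2 : !₂[a, -ra] ∈ K) (h3 : !₂[b, rb] ∈ K) (h4 : !₂[b, -rb] ∈ K)
    (x : E 2) (hx : x 0 ∈ Icc a b) (hlo : -(wd a b ra rb (x 0)) < x 1)
    (hhi : x 1 < wd a b ra rb (x 0)) : x ∈ K := by
  have hba : 0 < b - a := by linarith
  set t := x 0 with ht
  set w := wd a b ra rb t with hw
  have hw0 : 0 < w := by linarith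
  have hweq : w * (b - a) = ra * (b - t) + rb * (t - a) := by
    rw [hw, wd, div_mul_cancel₀ _ hba.ne']
  have hP : !₂[t, w] ∈ K := by
    have h := hK h1 h3 (a := (b - t) / (b - a)) (b := (t - a) / (b - a))
      (div_nonneg (by linarith [hx.2]) hba.le) (div_nonneg (by linarith [hx.1]) hba.le)
      (by field_simp; ring)
    convert h using 1
    ext i
    fin_cases i
    · simp
      field_simp
      ring
    · simp
      field_simp
      linarith
  have hN : !₂[t, -w] ∈ K := by
    have h := hK h2 h4 (a := (b - t) / (b - a)) (b := (t - a) / (b - a))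
      (div_nonneg (by linarith [hx.2]) hba.le) (div_nonneg (by linarith [hx.1]) hba.le)
      (by field_simp; ring)
    convert h using 1
    ext i
    fin_cases i
    · simp
      field_simp
      ring
    · simp
      field_simp
      linarith
  have h := hK hP hN (a := (w + x 1) / (2 * w)) (b := (w - x 1) / (2 * w))
    (div_nonneg (by linarith) (by linarith)) (div_nonneg (by linarith) (by linarith))
    (by field_simp; ring)
  convert h using 1
  ext i
  fin_cases i
  · simp
    rw [← ht]
    field_simp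
    ring
  · simp
    field_simp
    ring

lemma vol_region (a b ra rb : ℝ) (hab : a < b) (hra : 0 ≤ ra) (hrb : 0 ≤ rb) :
    volume (regionBetween (fun t => -(wd a b ra rb t)) (fun t => wd a b ra rb t) (Ioc a b)) =
      ENNReal.ofReal ((ra + rb) * (b - a)) := by
  have hba : 0 < b - a := by linarith
  have hc : Continuous (fun t => wd a b ra rb t) := by
    unfold wd
    fun_prop
  have hi : IntegrableOn (fun t => wd a b ra rb t) (Ioc a b) volume :=
    (hc.integrableOn_Icc).mono_set Ioc_subset_Icc_self
  have hneg : IntegrableOn (fun t => -(wd a b ra rb t)) (Ioc a b) volume := hi.neg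
  have h := volume_regionBetween_eq_integral (μ := (volume : Measure ℝ)) hneg hi
    measurableSet_Ioc ?_
  · rw [Measure.volume_eq_prod, h]
    congr 1
    have e : ∀ t, ((fun t => wd a b ra rb t) - fun t => -(wd a b ra rb t)) t =
        (2 * (ra * b - rb * a) / (b - a)) + (2 * (rb - ra) / (b - a)) * t := by
      intro t
      simp only [Pi.sub_apply, wd]
      field_simp
      ring
    simp_rw [e]
    have i1 : IntervalIntegrable (fun _ : ℝ => 2 * (ra * b - rb * a) / (b - a)) volume a b :=
      continuous_const.intervalIntegrable _ _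
    have i2 : IntervalIntegrable (fun x : ℝ => 2 * (rb - ra) / (b - a) * x) volume a b :=
      (continuous_const.mul continuous_id).intervalIntegrable _ _
    rw [← intervalIntegral.integral_of_le hab.le, intervalIntegral.integral_add i1 i2,
      intervalIntegral.integral_const, intervalIntegral.integral_const_mul, integral_id]
    simp only [smul_eq_mul]
    field_simp
    ring
  · intro t ht
    have : 0 ≤ wd a b ra rb t := by
      unfold wd
      refine div_nonneg (add_nonneg (mul_nonneg hra ?_) (mul_nonneg hrb ?_)) hba.le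
      · linarith [ht.2]
      · linarith [ht.1]
    show -(wd a b ra rb t) ≤ wd a b ra rb t
    linarith

lemma vol_hull : ENNReal.ofReal 0.657 ≤ volume (convexHull ℝ (range c)) := by
  set K := convexHull ℝ (range c) with hKdef
  have hK : Convex ℝ K := convex_convexHull ℝ (range c)
  have hc0 : !₂[(0.52573 : ℝ), 0] ∈ K := mem_c 0
  have hc1 : !₂[(0.16246 : ℝ), 0.5] ∈ K := mem_c 1
  have hc2 : !₂[(0.16246 : ℝ), -0.5] ∈ K := mem_c 2
  have hc3 : !₂[(-0.42532 : ℝ), 0.30901] ∈ K := mem_c 3
  have hc4 : !₂[(-0.42532 : ℝ), -0.30901] ∈ K := mem_c 4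
  set R1 := regionBetween (fun t => -(wd (-0.42532) 0.16246 0.30901 0.5 t))
    (fun t => wd (-0.42532) 0.16246 0.30901 0.5 t) (Ioc (-0.42532) 0.16246) with hR1
  set R2 := regionBetween (fun t => -(wd 0.16246 0.52573 0.5 0 t))
    (fun t => wd 0.16246 0.52573 0.5 0 t) (Ioc 0.16246 0.52573) with hR2
  have hm1 : MeasurableSet R1 := by
    refine measurableSet_regionBetween ?_ ?_ measurableSet_Ioc
    · unfold wd; fun_prop
    · unfold wd; fun_prop
  have hm2 : MeasurableSet R2 := by
    refine measurableSet_regionBetween ?_ ?_ measurableSet_Ioc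
    · unfold wd; fun_prop
    · unfold wd; fun_prop
  have hd : Disjoint R1 R2 := by
    rw [Set.disjoint_left]
    intro p h1 h2
    have a1 := h1.1.2
    have a2 := h2.1.1
    linarith
  have hsub : Φ ⁻¹' (R1 ∪ R2) ⊆ K := by
    rintro x (hx | hx)
    · exact mem_region K hK _ _ _ _ (by norm_num) hc3 hc4 hc1 hc2 x ⟨hx.1.1.le, hx.1.2⟩
        hx.2.1 hx.2.2
    · refine mem_region K hK _ _ _ _ (by norm_num) hc1 hc2 hc0 ?_ x ⟨hx.1.1.le, hx.1.2⟩
        hx.2.1 hx.2.2
      simpa using hc0
  calc ENNReal.ofReal 0.657 ≤ ENNReal.ofReal ((0.30901 + 0.5) * (0.16246 - (-0.42532))) +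
        ENNReal.ofReal ((0.5 + 0) * (0.52573 - 0.16246)) := by
        rw [← ENNReal.ofReal_add (by norm_num) (by norm_num)]
        exact ENNReal.ofReal_le_ofReal (by norm_num)
    _ = volume R1 + volume R2 := by
        rw [hR1, hR2, vol_region _ _ _ _ (by norm_num) (by norm_num) (by norm_num),
          vol_region _ _ _ _ (by norm_num) (by norm_num) (by norm_num)]
    _ = volume (R1 ∪ R2) := (measure_union hd hm2).symm
    _ = volume (Φ ⁻¹' (R1 ∪ R2)) :=
        (Φ_mp.measure_preimage (hm1.union hm2).nullMeasurableSet).symm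
    _ ≤ volume K := measure_mono hsub

theorem thm : G_PENT := by
  have hcomp : IsCompact (convexHull ℝ (range c)) := (Set.finite_range c).isCompact_convexHull ℝ
  have hv := vol_hull
  refine ⟨c, dist_c, norm_c, zero_mem, ?_, ?_⟩
  · by_contra hne
    rw [not_nonempty_iff_eq_empty] at hne
    have h1 : convexHull ℝ (range c) ⊆ frontier (convexHull ℝ (range c)) := by
      rw [frontier, hne, diff_empty]
      exact subset_closure
    have h2 : volume (convexHull ℝ (range c)) ≤ 0 := by
      rw [← (convex_convexHull ℝ (range c)).addHaar_frontier volume]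
      exact measure_mono h1
    have h3 := hv.trans h2
    rw [nonpos_iff_eq_zero, ENNReal.ofReal_eq_zero] at h3
    norm_num at h3
  · have hfin : volume (convexHull ℝ (range c)) ≠ ⊤ := hcomp.measure_lt_top.ne
    rw [← ENNReal.ofReal_le_iff_le_toReal hfin]
    exact hv

end PkPENT

end Pool.Agent.Helper57.Poly
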