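import Pool.Agent.Helper86.Poly.Goals

set_option autoImplicit false

namespace Pool.Agent.Helper57.Poly

open MeasureTheory Set Pool.Agent.Helper86.Poly
open scoped Pointwise

namespace PkX

lemma inner_int (u : ℝ) (hu : 0 ≤ u) :
    ∫⁻ t in Ioi (0 : ℝ), (Ici u).indicator (fun t => ENNReal.ofReal (Real.exp (-t))) t =
      ENNReal.ofReal (Real.exp (-u)) := by
  rw [lintegral_indicator measurableSet_Ici, Measure.restrict_restrict measurableSet_Ici]
  have h1 : (Ici u ∩ Ioi 0 : Set ℝ) =ᵐ[volume] Ioi u := by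
    rcases hu.eq_or_lt with rfl | hu
    · have : Ici (0 : ℝ) ∩ Ioi 0 = Ioi 0 := by
        ext t
        simp only [mem_inter_iff, mem_Ici, mem_Ioi, and_iff_right_iff_imp]
        exact fun h => h.le
      rw [this]
    · have : Ici u ∩ Ioi 0 = Ici u := by
        ext t
        simp only [mem_inter_iff, mem_Ici, mem_Ioi, and_iff_left_iff_imp]
        exact fun h => lt_of_lt_of_le hu h
      rw [this]
      exact Ioi_ae_eq_Ici.symm
  rw [Measure.restrict_congr_set h1, ← ofReal_integral_eq_lintegral_ofReal, integral_exp_neg_Ioi]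
  · have h2 := exp_neg_integrableOn_Ioi u (b := 1) one_pos
    simpa [IntegrableOn] using h2
  · exact ae_of_all _ fun t => (Real.exp_pos _).le

lemma gamma_int (m : ℕ) :
    ∫⁻ t in Ioi (0 : ℝ), ENNReal.ofReal (Real.exp (-t) * t ^ m) = (m.factorial : ENNReal) := by
  have h1 := Real.Gamma_eq_integral (s := (m : ℝ) + 1) (by positivity)
  have h2 := Real.GammaIntegral_convergent (s := (m : ℝ) + 1) (by positivity)
  have h3 : ∀ t : ℝ, Real.exp (-t) * t ^ ((m : ℝ) + 1 - 1) = Real.exp (-t) * t ^ m := by
    intro t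
    rw [add_sub_cancel_right, Real.rpow_natCast]
  simp_rw [h3] at h1 h2
  rw [← ofReal_integral_eq_lintegral_ofReal h2]
  · rw [← h1, Real.Gamma_nat_eq_factorial]
    simp
  · filter_upwards [ae_restrict_mem measurableSet_Ioi] with t ht
    have : 0 < t := ht
    positivity

theorem thm : G_X := by
  intro κ _ Γ hm h0 hh
  set g : ℝ → ENNReal := fun t => ENNReal.ofReal (Real.exp (-t)) with hg
  have hgm : Measurable g := by
    rw [hg]
    fun_prop
  have h1 : ∀ x, ENNReal.ofReal (Real.exp (-(Γ x))) = ∫⁻ t in Ioi (0 : ℝ), (Ici (Γ x)).indicator g t :=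
    fun x => (inner_int (Γ x) (h0 x)).symm
  simp_rw [h1]
  have hmeas : Measurable (fun p : (κ → ℝ) × ℝ => (Ici (Γ p.1)).indicator g p.2) := by
    have e : (fun p : (κ → ℝ) × ℝ => (Ici (Γ p.1)).indicator g p.2) =
        ({p : (κ → ℝ) × ℝ | Γ p.1 ≤ p.2}).indicator (fun p => g p.2) := by
      funext p
      by_cases hp : Γ p.1 ≤ p.2
      · rw [indicator_of_mem (by exact hp), indicator_of_mem (by exact hp)]
      · rw [indicator_of_notMem (by exact hp), indicator_of_notMem (by exact hp)]
    rw [e]
    refine Measurable.indicator (hgm.comp measurable_snd) ?_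
    exact measurableSet_le (hm.comp measurable_fst) measurable_snd
  rw [lintegral_lintegral_swap hmeas.aemeasurable]
  have h2 : ∀ t : ℝ, ∫⁻ x, (Ici (Γ x)).indicator g t = g t * volume {x | Γ x ≤ t} := by
    intro t
    have e : (fun x => (Ici (Γ x)).indicator g t) = ({x | Γ x ≤ t}).indicator (fun _ => g t) := by
      funext x
      by_cases hp : Γ x ≤ t
      · rw [indicator_of_mem (by exact hp), indicator_of_mem (by exact hp)]
      · rw [indicator_of_notMem (by exact hp), indicator_of_notMem (by exact hp)]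
    rw [e, lintegral_indicator_const (measurableSet_le hm measurable_const)]
  simp_rw [h2]
  have h3 : ∀ t ∈ Ioi (0 : ℝ), g t * volume {x | Γ x ≤ t} =
      ENNReal.ofReal (Real.exp (-t) * t ^ (Fintype.card κ)) * volume {x | Γ x ≤ 1} := by
    intro t ht
    have ht' : 0 < t := ht
    have e : {x | Γ x ≤ t} = t • {x | Γ x ≤ 1} := by
      ext x
      rw [mem_smul_set_iff_inv_smul_mem₀ ht'.ne']
      simp only [mem_setOf_eq]
      rw [hh t⁻¹ x (by positivity), inv_mul_le_iff₀ ht', mul_one]
    rw [e, Measure.addHaar_smul, Module.finrank_fintype_fun_eq_card,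
      abs_of_pos (pow_pos ht' _), ← mul_assoc, ENNReal.ofReal_mul (Real.exp_pos _).le]
  rw [setLIntegral_congr_fun measurableSet_Ioi h3, lintegral_mul_const, gamma_int]
  fun_prop

end PkX

end Pool.Agent.Helper57.Poly
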